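import Mathlib

/-!
# MP_1e7754_co: a 2-edge-coloured graph in which every good set has fewer than a third of the vertices

There is a 2-edge-coloured graph with `1267` vertices in which every good set has at most `422`
vertices; note that `3 * 422 < 1267`.

Construction. There are `7` hubs. For each injection `e` of `Fin 3` into the set of hubs there is a
block of `6` vertices; its vertices are joined to each other and to the three hubs `e 0`, `e 1`,
`e 2` as prescribed by a fixed table. The table is such that a good set contains at most two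
vertices of a block, and at most one if it contains all the three hubs of the block. So a good set
that contains `m` hubs has at most `420 - m (m - 1) (m - 2) + m ≤ 422` vertices.
-/

set_option autoImplicit false

namespace Pool.Agent.Results.MP_1e7754_co.SmallGoodSets

open Finset

/-- Let `R` and `B` be the red and the blue graph of a 2-edge-coloured graph on `V`. The set `X` is
good if every vertex of `X` has at least half of its red neighbours and at least half of its blue
neighbours outside `X`. -/
def Good {V : Type} (R B : SimpleGraph V) (X : Finset V) : Prop :=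
  ∀ v ∈ X, (R.neighborSet v).ncard ≤ 2 * (R.neighborSet v \ ↑X).ncard ∧
    (B.neighborSet v).ncard ≤ 2 * (B.neighborSet v \ ↑X).ncard

/-- The colours inside a block: `1` is red, `2` is blue, `0` means that there is no edge. -/
def tab : Fin 6 → Fin 6 → Fin 3 :=
  ![![0, 2, 1, 1, 0, 0],
    ![2, 0, 0, 2, 0, 1],
    ![1, 0, 0, 2, 1, 1],
    ![1, 2, 2, 0, 2, 0],
    ![0, 0, 1, 2, 0, 2],
    ![0, 1, 1, 0, 2, 0]]

/-- The colours of the edges between a block and its three hubs. -/
def hub : Fin 6 → Fin 3 → Fin 3 :=
  ![![1, 1, 1],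
    ![2, 2, 2],
    ![0, 0, 0],
    ![0, 0, 0],
    ![2, 2, 0],
    ![1, 1, 1]]

/-- The vertices: a block of six vertices for each injection of `Fin 3` into the set `Fin 7` of
hubs, and the hubs. -/
abbrev Vert : Type := ((Fin 3 ↪ Fin 7) × Fin 6) ⊕ Fin 7

/-- Adjacency in the colour `k`. -/
def adj (k : Fin 3) : Vert → Vert → Prop
  | Sum.inl p, Sum.inl q => p.1 = q.1 ∧ tab p.2 q.2 = k
  | Sum.inl p, Sum.inr h => ∃ t, p.1 t = h ∧ hub p.2 t = k
  | Sum.inr h, Sum.inl p => ∃ t, p.1 t = h ∧ hub p.2 t = k
  | Sum.inr _, Sum.inr _ => False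

theorem tab_symm : ∀ i j, tab i j = tab j i := by decide

theorem tab_diag : ∀ i, tab i i = 0 := by decide

/-- The graph of the edges of colour `k`. -/
def graph (k : Fin 3) (hk : k ≠ 0) : SimpleGraph Vert where
  Adj := adj k
  symm := ⟨by
    rintro (⟨e, i⟩ | h) (⟨f, j⟩ | h') H
    · exact ⟨H.1.symm, (tab_symm j i).trans H.2⟩
    · exact H
    · exact H
    · exact H⟩
  loopless := ⟨by
    rintro (⟨e, i⟩ | h) H
    · exact hk ((tab_diag i).symm.trans H.2).symm
    · exact H⟩

/-- The colour of the edge between the vertex `i` of a block and the vertex `l` of the block or the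
`l`-th hub of the block. -/
def col (i : Fin 6) : Fin 6 ⊕ Fin 3 → Fin 3
  | Sum.inl j => tab i j
  | Sum.inr t => hub i t

/-- The block of `e` together with its hubs. -/
def emb (e : Fin 3 ↪ Fin 7) : Fin 6 ⊕ Fin 3 → Vert
  | Sum.inl j => Sum.inl (e, j)
  | Sum.inr t => Sum.inr (e t)

theorem emb_inj (e : Fin 3 ↪ Fin 7) : Function.Injective (emb e) := by
  rintro (i | i) (j | j) h
  · simp only [emb, Sum.inl.injEq, Prod.mk.injEq, true_and] at h; rw [h]
  · simp [emb] at h
  · simp [emb] at h
  · simp only [emb, Sum.inr.injEq] at h; rw [e.injective h]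

theorem neighborSet_eq (k : Fin 3) (hk : k ≠ 0) (e : Fin 3 ↪ Fin 7) (i : Fin 6) :
    (graph k hk).neighborSet (Sum.inl (e, i)) = emb e '' {l | col i l = k} := by
  ext v
  simp only [SimpleGraph.mem_neighborSet, Set.mem_image, Set.mem_ofPred_eq]
  rcases v with ⟨f, j⟩ | h
  · constructor
    · rintro ⟨h1, h2⟩
      simp only at h1 h2
      exact ⟨Sum.inl j, h2, by simp [emb, h1]⟩
    · rintro ⟨l | t, h1, h2⟩
      · simp only [emb, Sum.inl.injEq, Prod.mk.injEq] at h2
        exact ⟨h2.1, by rw [← h2.2]; exact h1⟩
      · simp [emb] at h2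
  · constructor
    · rintro ⟨t, h1, h2⟩
      simp only at h1 h2
      exact ⟨Sum.inr t, h2, by simp [emb, h1]⟩
    · rintro ⟨l | t, h1, h2⟩
      · simp [emb] at h2
      · simp only [emb, Sum.inr.injEq] at h2
        exact ⟨t, h2, h1⟩

/-- The finite check. `y` describes the part of a good set in a block, and `z` its part in the set of
the three hubs of the block. -/
theorem check : ∀ (y : Fin 6 → Bool) (z : Fin 3 → Bool),
    (∀ i, y i = true → ∀ k : Fin 3, k ≠ 0 →
      (univ.filter fun j => tab i j = k).card + (univ.filter fun t => hub i t = k).card ≤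
        2 * ((univ.filter fun j => tab i j = k ∧ y j = false).card +
          (univ.filter fun t => hub i t = k ∧ z t = false).card)) →
    (univ.filter fun j => y j = true).card ≤ 2 ∧
      ((∀ t, z t = true) → (univ.filter fun j => y j = true).card ≤ 1) := by
  decide +kernel

theorem ncard_sum (P : Fin 6 ⊕ Fin 3 → Prop) (p : Fin 6 → Prop) (q : Fin 3 → Prop)
    [DecidablePred p] [DecidablePred q] (hp : ∀ j, P (Sum.inl j) ↔ p j)
    (hq : ∀ t, P (Sum.inr t) ↔ q t) :
    {l | P l}.ncard = (univ.filter p).card + (univ.filter q).card := by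
  have : {l | P l} = ((univ.filter p).disjSum (univ.filter q) : Set (Fin 6 ⊕ Fin 3)) := by
    ext l
    rcases l with j | t
    · simp [hp]
    · simp [hq]
  rw [this, Set.ncard_coe_finset, card_disjSum]

/-- The part of `X` in the block of `e`. -/
def part (X : Finset Vert) (e : Fin 3 ↪ Fin 7) : Finset (Fin 6) :=
  univ.filter fun i => (Sum.inl (e, i) : Vert) ∈ X

/-- The set of hubs in `X`. -/
def hubs (X : Finset Vert) : Finset (Fin 7) :=
  univ.filter fun h => (Sum.inr h : Vert) ∈ X

theorem local_bound (X : Finset Vert) (hX : Good (graph 1 (by decide)) (graph 2 (by decide)) X)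
    (e : Fin 3 ↪ Fin 7) :
    (part X e).card ≤ 2 ∧ ((∀ t, e t ∈ hubs X) → (part X e).card ≤ 1) := by
  classical
  have key := check (fun i => decide ((Sum.inl (e, i) : Vert) ∈ X))
    (fun t => decide ((Sum.inr (e t) : Vert) ∈ X)) ?_
  · simp only [decide_eq_true_eq] at key
    refine ⟨key.1, fun h => key.2 fun t => ?_⟩
    have := h t
    simpa [hubs] using this
  · intro i hi k hk
    simp only [decide_eq_true_eq] at hi
    have h0 := hX _ hi
    have hh : ((graph k hk).neighborSet (Sum.inl (e, i))).ncard ≤
        2 * ((graph k hk).neighborSet (Sum.inl (e, i)) \ ↑X).ncard := by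
      have hk' : k = 1 ∨ k = 2 := by
        revert hk; revert k; decide
      rcases hk' with rfl | rfl
      · exact h0.1
      · exact h0.2
    rw [neighborSet_eq, Set.ncard_image_of_injective _ (emb_inj e)] at hh
    have h1 : emb e '' {l | col i l = k} \ (X : Set Vert) =
        emb e '' {l | col i l = k ∧ emb e l ∉ X} := by
      ext v
      simp only [Set.mem_sdiff, Set.mem_image, Set.mem_ofPred_eq, SetLike.mem_coe]
      constructor
      · rintro ⟨⟨l, h1, rfl⟩, h2⟩
        exact ⟨l, ⟨h1, h2⟩, rfl⟩
      · rintro ⟨l, ⟨h1, h2⟩, rfl⟩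
        exact ⟨⟨l, h1, rfl⟩, h2⟩
    rw [h1, Set.ncard_image_of_injective _ (emb_inj e),
      ncard_sum _ (fun j => tab i j = k) (fun t => hub i t = k) (fun _ => Iff.rfl)
        (fun _ => Iff.rfl),
      ncard_sum _ (fun j => tab i j = k ∧ decide ((Sum.inl (e, j) : Vert) ∈ X) = false)
        (fun t => hub i t = k ∧ decide ((Sum.inr (e t) : Vert) ∈ X) = false)
        (fun _ => by simp [col, emb]) (fun _ => by simp [col, emb])] at hh
    exact hh

theorem card_eq (X : Finset Vert) :
    X.card = ∑ e, (part X e).card + (hubs X).card := by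
  classical
  have : X = (univ.filter fun p : (Fin 3 ↪ Fin 7) × Fin 6 => (Sum.inl p : Vert) ∈ X).disjSum
      (hubs X) := by
    ext v
    rcases v with p | h <;> simp [hubs]
  conv_lhs => rw [this]
  rw [card_disjSum]
  congr 1
  rw [card_filter, Fintype.sum_prod_type]
  refine sum_congr rfl fun e _ => ?_
  rw [part, card_filter]

theorem card_emb : Fintype.card (Fin 3 ↪ Fin 7) = 210 := by
  rw [Fintype.card_embedding_eq]; rfl

theorem total_bound (X : Finset Vert) (hX : Good (graph 1 (by decide)) (graph 2 (by decide)) X) :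
    X.card ≤ 422 := by
  classical
  rw [card_eq]
  have h7 : (hubs X).card ≤ 7 := (card_le_univ _).trans (by simp)
  by_cases h2 : (hubs X).card ≤ 2
  · have : ∑ e, (part X e).card ≤ ∑ _e : Fin 3 ↪ Fin 7, 2 :=
      sum_le_sum fun e _ => (local_bound X hX e).1
    rw [sum_const, card_univ, card_emb] at this
    simp only [smul_eq_mul] at this
    omega
  · obtain ⟨s, hs, hs3⟩ := exists_subset_card_eq (show 3 ≤ (hubs X).card by omega)
    -- the embeddings into `s`
    let e0 : Fin 3 ↪ Fin 7 := (s.orderEmbOfFin hs3).toEmbedding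
    have he0 : ∀ t, e0 t ∈ hubs X := fun t => hs (s.orderEmbOfFin_mem hs3 t)
    let F : Equiv.Perm (Fin 3) → (Fin 3 ↪ Fin 7) := fun σ => σ.toEmbedding.trans e0
    have hF : Function.Injective F := by
      intro σ τ h
      ext t
      have := DFunLike.congr_fun h t
      simp only [F, Function.Embedding.trans_apply, Equiv.coe_toEmbedding,
        EmbeddingLike.apply_eq_iff_eq] at this
      rw [this]
    let A : Finset (Fin 3 ↪ Fin 7) := univ.image F
    have hA : A.card = 6 := by
      rw [card_image_of_injective _ hF, card_univ, Fintype.card_perm]; rfl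
    have hsum : ∑ e, (part X e).card + A.card ≤ ∑ _e : Fin 3 ↪ Fin 7, 2 := by
      have h1 : A.card = ∑ e : Fin 3 ↪ Fin 7, if e ∈ A then 1 else 0 := by
        rw [sum_ite_mem]; simp
      rw [h1, ← sum_add_distrib]
      refine sum_le_sum fun e _ => ?_
      split_ifs with h
      · simp only [A, mem_image, mem_univ, true_and] at h
        obtain ⟨σ, rfl⟩ := h
        have := (local_bound X hX (F σ)).2 fun t => he0 (σ t)
        omega
      · exact (local_bound X hX e).1
    rw [sum_const, card_univ, card_emb, hA] at hsum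
    simp only [smul_eq_mul] at hsum
    omega

/-- **There is a 2-edge-coloured graph (on 1267 vertices) in which every good set has fewer than a
third of the vertices.** -/
theorem result : ∃ (V : Type) (_ : Fintype V) (R B : SimpleGraph V), Disjoint R B ∧
    Fintype.card V = 1267 ∧ ∀ X : Finset V, Good R B X → X.card ≤ 422 ∧
      3 * X.card < Fintype.card V := by
  have hc : Fintype.card Vert = 1267 := by
    rw [Fintype.card_sum, Fintype.card_prod, card_emb]; simp
  refine ⟨Vert, inferInstance, graph 1 (by decide), graph 2 (by decide), ?_, hc, fun X hX => ?_⟩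
  · rw [SimpleGraph.disjoint_left]
    rintro (⟨e, i⟩ | h) (⟨f, j⟩ | h') h1 h2
    · have h3 := h1.2.symm.trans h2.2
      simp at h3
    · obtain ⟨t, ht, h3⟩ := h1
      obtain ⟨t', ht', h4⟩ := h2
      simp only at ht ht' h3 h4
      rw [e.injective (ht.trans ht'.symm), h4] at h3
      simp at h3
    · obtain ⟨t, ht, h3⟩ := h1
      obtain ⟨t', ht', h4⟩ := h2
      simp only at ht ht' h3 h4
      rw [f.injective (ht.trans ht'.symm), h4] at h3
      simp at h3
    · exact h1
  · have := total_bound X hX
    exact ⟨this, by rw [hc]; omega⟩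

end Pool.Agent.Results.MP_1e7754_co.SmallGoodSets
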